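import Pool.Agent.Helper57.NW.Defs
import Pool.Agent.Helper60.NS.Shift
import Pool.Agent.Helper69.NS.Loss
import Pool.Agent.Helper69.NR.Loss

/-!
# NW, block G1: one scale, the smooth count against the prime sum
-/

set_option autoImplicit false
open MeasureTheory Set Filter Topology
open Pool.Agent.Helper57.Zeta Pool.Agent.Helper57.LH Pool.Agent.Helper57.ED
open Pool.Agent.Helper54.LG (za zb qk SS MM)
open Pool.Agent.Helper93.UG (zc sp)
open Pool.Agent.Helper69.UG (XX NX)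
open Pool.Agent.Helper57.TX (QX DP rs)
open Pool.Agent.Helper57.NS (Thick cnt)
open Pool.Agent.Helper60.NS (pow_le_T)

namespace Pool.Agent.Helper60.NW

/-- the indices of the scales in `[L ^ κ, L ^ (1 - κ)]` -/
noncomputable def Rg (k κ L : ℝ) : Finset ℕ :=
  (Finset.range (⌊L / k⌋₊ + 1)).filter fun j => L ^ κ ≤ (1 + k) ^ j ∧ (1 + k) ^ j ≤ L ^ (1 - κ)

theorem mem_Rg {k κ L : ℝ} (hk : 0 < k) (hκ : 0 < κ) (hL : 1 ≤ L) {j : ℕ} (h1 : L ^ κ ≤ (1 + k) ^ j) (h2 : (1 + k) ^ j ≤ L ^ (1 - κ)) :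
    j ∈ Rg k κ L := by
  unfold Rg
  refine Finset.mem_filter.2 ⟨Finset.mem_range.2 (Nat.lt_succ_of_le (Nat.le_floor ?_)), h1, h2⟩
  rw [le_div_iff₀ hk]
  have h3 : 1 + (j : ℝ) * k ≤ (1 + k) ^ j := one_add_mul_le_pow (by linarith) j
  have h4 : L ^ (1 - κ) ≤ L := by
    calc L ^ (1 - κ) ≤ L ^ (1 : ℝ) := Real.rpow_le_rpow_of_exponent_le hL (by linarith)
      _ = L := Real.rpow_one L
  linarith

theorem card_Rg {k κ L : ℝ} (hk : 0 < k) (hL : 1 ≤ L) : ((Rg k κ L).card : ℝ) ≤ (1 / k + 1) * L := by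
  have h1 : (Rg k κ L).card ≤ ⌊L / k⌋₊ + 1 := by
    unfold Rg
    exact (Finset.card_filter_le _ _).trans (le_of_eq (Finset.card_range _))
  have h2 : ((Rg k κ L).card : ℝ) ≤ (⌊L / k⌋₊ : ℝ) + 1 := by exact_mod_cast h1
  have h3 : (⌊L / k⌋₊ : ℝ) ≤ L / k := Nat.floor_le (by positivity)
  calc ((Rg k κ L).card : ℝ) ≤ L / k + 1 := by linarith
    _ ≤ L / k + L := by linarith
    _ = _ := by ring

/-- G1: one scale, the smooth count (all scales outside of one small set) -/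
theorem tot_sc {k κ : ℝ} (hk : 0 < k) (hk8 : k ≤ 1 / 8) (hκ : 0 < κ) (hκ8 : κ ≤ 1 / 8) :
    ∃ c C T₀ : ℝ, 0 < c ∧ 1 ≤ C ∧ ∀ T L : ℝ, T₀ ≤ T → C ≤ L → L ≤ Real.log T →
    ∃ E : Set ℝ, volume E ≤ ENNReal.ofReal (C * L ^ (-4 : ℝ) * T) ∧ ∀ t ∈ Icc (T / 2) (3 * T), t ∉ E → ∀ u : ℝ, |u - t| ≤ sp T →
    ∀ j : ℕ, L ^ κ ≤ (1 + k) ^ j → (1 + k) ^ j ≤ L ^ (1 - κ) →
      |NX (XX T ((1 + k) ^ j)) u - ((1 + k) ^ j - SS (XX T ((1 + k) ^ j)) u)| ≤ C * L ^ (-c) := by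
  classical
  obtain ⟨Cm, Tm, hCm, hmm⟩ := Pool.Agent.Helper69.NR.mm_main69
  obtain ⟨B, hB⟩ : ∃ B : ℕ, 5 / κ ≤ B := exists_nat_ge _
  obtain ⟨Cl, M₀, Tl, hCl, hM₀, hloss⟩ := Pool.Agent.Helper69.NS.loss_thick B
  obtain ⟨K, hK⟩ : ∃ K : ℝ, K = 1 / k + 1 := ⟨_, rfl⟩
  have hK0 : 0 < K := by rw [hK]; positivity
  refine ⟨κ / 4, max (max (K * Cl + 168) (Cl + Cm)) (max 64 (M₀ ^ (1 / κ))), max (max Tm Tl) 100,
    by positivity, ?_, ?_⟩
  · exact le_trans (by norm_num : (1 : ℝ) ≤ 64) ((le_max_left _ _).trans (le_max_right _ _))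
  intro T L hT hL hLT
  have hTm : Tm ≤ T := ((le_max_left _ _).trans (le_max_left _ _)).trans hT
  have hTl : Tl ≤ T := ((le_max_right _ _).trans (le_max_left _ _)).trans hT
  have hT100 : 100 ≤ T := (le_max_right _ _).trans hT
  have hT0 : 0 < T := by linarith
  obtain ⟨CC, hCC⟩ : ∃ CC : ℝ, CC = max (max (K * Cl + 168) (Cl + Cm)) (max 64 (M₀ ^ (1 / κ))) := ⟨_, rfl⟩
  rw [← hCC] at hL ⊢
  have hC1 : K * Cl + 168 ≤ CC := hCC ▸ (le_max_left _ _).trans (le_max_left _ _)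
  have hC2 : Cl + Cm ≤ CC := hCC ▸ (le_max_right _ _).trans (le_max_left _ _)
  have hL64 : 64 ≤ L := (hCC ▸ (le_max_left _ _).trans (le_max_right _ _)).trans hL
  have hLM : M₀ ^ (1 / κ) ≤ L := (hCC ▸ (le_max_right _ _).trans (le_max_right _ _)).trans hL
  have hL1 : 1 ≤ L := by linarith
  have hL0 : 0 < L := by linarith
  have hlT : 0 < Real.log T := by linarith
  have hJK : ((Rg k κ L).card : ℝ) ≤ K * L := by
    rw [hK]
    exact card_Rg hk hL1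
  have hmem : ∀ j ∈ Rg k κ L, L ^ κ ≤ (1 + k) ^ j ∧ (1 + k) ^ j ≤ L ^ (1 - κ) := by
    intro j hj
    unfold Rg at hj
    exact (Finset.mem_filter.1 hj).2
  have hM : ∀ j ∈ Rg k κ L, M₀ ≤ (1 + k) ^ j ∧ (1 + k) ^ j ≤ Real.log T ∧ 1 ≤ (1 + k) ^ j := by
    intro j hj
    obtain ⟨h1, h2⟩ := hmem j hj
    refine ⟨?_, ?_, one_le_pow₀ (by linarith)⟩
    · refine le_trans ?_ h1
      have h3 : M₀ = (M₀ ^ (1 / κ)) ^ κ := by
        rw [← Real.rpow_mul (by linarith)]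
        have : 1 / κ * κ = 1 := by field_simp
        rw [this, Real.rpow_one]
      rw [h3]
      exact Real.rpow_le_rpow (Real.rpow_nonneg (by linarith) _) hLM hκ.le
    · refine h2.trans ?_
      calc L ^ (1 - κ) ≤ L ^ (1 : ℝ) := Real.rpow_le_rpow_of_exponent_le hL1 (by linarith)
        _ = L := Real.rpow_one L
        _ ≤ _ := hLT
  have hex : ∀ j : ℕ, ∃ E : Set ℝ, j ∈ Rg k κ L → volume E ≤ ENNReal.ofReal (Cl / ((1 + k) ^ j) ^ B * T) ∧
      ∀ t ∈ Icc (T / 2) (3 * T), ∀ u : ℝ, |u - t| ≤ sp T → Cl / ((1 + k) ^ j) ^ (1 / 4 : ℝ) <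
        |NX (XX T ((1 + k) ^ j)) u - (MM (XX T ((1 + k) ^ j)) u - SS (XX T ((1 + k) ^ j)) u)| → t ∈ E := by
    intro j
    by_cases hj : j ∈ Rg k κ L
    · obtain ⟨E, h1, h2⟩ := hloss T ((1 + k) ^ j) hTl (hM j hj).1 (hM j hj).2.1
      exact ⟨E, fun _ => ⟨h1, h2⟩⟩
    · exact ⟨∅, fun h => absurd h hj⟩
  choose E hE using hex
  have hLkpos : 0 < L ^ κ := Real.rpow_pos_of_pos hL0 _
  have hE1 : ∀ j ∈ Rg k κ L, Cl / ((1 + k) ^ j) ^ (1 / 4 : ℝ) ≤ Cl * L ^ (-(κ / 4)) := by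
    intro j hj
    have h1 := (hmem j hj).1
    have h0 : 0 < (1 + k) ^ j := by positivity
    rw [div_eq_mul_inv]
    refine mul_le_mul_of_nonneg_left ?_ hCl.le
    rw [← Real.rpow_neg h0.le]
    calc ((1 + k) ^ j) ^ (-(1 / 4) : ℝ) ≤ (L ^ κ) ^ (-(1 / 4) : ℝ) :=
          Real.rpow_le_rpow_of_nonpos hLkpos h1 (by norm_num)
      _ = L ^ (-(κ / 4)) := by
          rw [← Real.rpow_mul hL0.le]
          congr 1
          ring
  have hE2 : ∀ j ∈ Rg k κ L, Cl / ((1 + k) ^ j) ^ B ≤ Cl * L ^ (-5 : ℝ) := by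
    intro j hj
    have h1 := (hmem j hj).1
    rw [div_eq_mul_inv]
    refine mul_le_mul_of_nonneg_left ?_ hCl.le
    have h2 : L ^ (5 : ℝ) ≤ ((1 + k) ^ j) ^ B := by
      calc L ^ (5 : ℝ) ≤ L ^ (κ * B) := by
            apply Real.rpow_le_rpow_of_exponent_le hL1
            rw [div_le_iff₀ hκ] at hB
            linarith
        _ = (L ^ κ) ^ B := by rw [Real.rpow_mul hL0.le, Real.rpow_natCast]
        _ ≤ _ := pow_le_pow_left₀ hLkpos.le h1 _
    calc (((1 + k) ^ j) ^ B)⁻¹ ≤ (L ^ (5 : ℝ))⁻¹ := inv_anti₀ (by positivity) h2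
      _ = L ^ (-5 : ℝ) := by rw [← Real.rpow_neg hL0.le]
  have hsp0 : 0 < sp T := by
    unfold sp
    have := Real.pi_pos
    positivity
  have hsp7 : sp T ≤ 7 := by
    unfold sp
    rw [div_le_iff₀ hlT]
    nlinarith [Real.pi_lt_d2]
  refine ⟨(⋃ j ∈ Rg k κ L, E j) ∪ Icc (T / 2) (T / 2 + sp T), ?_, ?_⟩
  · -- the measure
    have h1 : volume (⋃ j ∈ Rg k κ L, E j) ≤ ENNReal.ofReal (K * Cl * L ^ (-4 : ℝ) * T) := by
      refine (measure_biUnion_finset_le _ _).trans ?_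
      calc ∑ j ∈ Rg k κ L, volume (E j) ≤ ∑ _j ∈ Rg k κ L, ENNReal.ofReal (Cl * L ^ (-5 : ℝ) * T) := by
            refine Finset.sum_le_sum fun j hj => ((hE j hj).1).trans (ENNReal.ofReal_le_ofReal ?_)
            exact mul_le_mul_of_nonneg_right (hE2 j hj) hT0.le
        _ = ENNReal.ofReal ((Rg k κ L).card * (Cl * L ^ (-5 : ℝ) * T)) := by
            rw [Finset.sum_const, nsmul_eq_mul, ENNReal.ofReal_mul (Nat.cast_nonneg (Rg k κ L).card), ENNReal.ofReal_natCast]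
        _ ≤ _ := by
            apply ENNReal.ofReal_le_ofReal
            have h3 : L * L ^ (-5 : ℝ) = L ^ (-4 : ℝ) := by
              nth_rewrite 1 [← Real.rpow_one L]
              rw [← Real.rpow_add hL0]
              norm_num
            calc ((Rg k κ L).card : ℝ) * (Cl * L ^ (-5 : ℝ) * T) ≤ (K * L) * (Cl * L ^ (-5 : ℝ) * T) :=
                  mul_le_mul_of_nonneg_right hJK (by positivity)
              _ = K * Cl * (L * L ^ (-5 : ℝ)) * T := by ring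
              _ = _ := by rw [h3]
    have h0 : volume (Icc (T / 2) (T / 2 + sp T)) ≤ ENNReal.ofReal (168 * L ^ (-4 : ℝ) * T) := by
      rw [Real.volume_Icc]
      apply ENNReal.ofReal_le_ofReal
      have g1 := pow_le_T 4 hL0.le hT0 hLT
      have g2 : ((Nat.factorial 4 : ℕ) : ℝ) = 24 := by norm_num [Nat.factorial]
      rw [g2] at g1
      have g3 : L ^ (-4 : ℝ) * L ^ 4 = 1 := by
        rw [← Real.rpow_natCast L 4, ← Real.rpow_add hL0]
        norm_num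
      have g4 : L ^ (-4 : ℝ) * L ^ 4 ≤ L ^ (-4 : ℝ) * (24 * T) := mul_le_mul_of_nonneg_left g1 (by positivity)
      rw [g3] at g4
      calc T / 2 + sp T - T / 2 = sp T := by ring
        _ ≤ 7 * 1 := by linarith
        _ ≤ 7 * (L ^ (-4 : ℝ) * (24 * T)) := mul_le_mul_of_nonneg_left g4 (by norm_num)
        _ = _ := by ring
    refine (measure_union_le _ _).trans ((add_le_add h1 h0).trans ?_)
    rw [← ENNReal.ofReal_add (by positivity) (by positivity)]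
    apply ENNReal.ofReal_le_ofReal
    calc K * Cl * L ^ (-4 : ℝ) * T + 168 * L ^ (-4 : ℝ) * T = (K * Cl + 168) * L ^ (-4 : ℝ) * T := by ring
      _ ≤ CC * L ^ (-4 : ℝ) * T := by gcongr
  · -- the inequality
    intro t ht hnot u hu j h1j h2j
    have hj : j ∈ Rg k κ L := mem_Rg hk hκ hL1 h1j h2j
    have hnS : t ∉ Icc (T / 2) (T / 2 + sp T) := fun h => hnot (Or.inr h)
    have hnE : t ∉ E j := fun h => hnot (Or.inl (mem_iUnion₂.2 ⟨j, hj, h⟩))
    have hu' := abs_le.1 hu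
    have huJ : u ∈ Pool.Agent.Helper57.TX.JJ T := by
      have h1 : T / 2 + sp T < t := by
        by_contra h
        exact hnS ⟨ht.1, not_lt.1 h⟩
      exact ⟨by linarith [hu'.1], by linarith [hu'.2, ht.2]⟩
    have h1 : |NX (XX T ((1 + k) ^ j)) u - (MM (XX T ((1 + k) ^ j)) u - SS (XX T ((1 + k) ^ j)) u)| ≤ Cl * L ^ (-(κ / 4)) := by
      refine le_trans ?_ (hE1 j hj)
      by_contra h
      exact hnE ((hE j hj).2 t ht u hu (not_le.1 h))
    have h2 : |MM (XX T ((1 + k) ^ j)) u - (1 + k) ^ j| ≤ Cm * L ^ (-(κ / 4)) := by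
      refine (hmm T ((1 + k) ^ j) u hTm (hM j hj).2.2 (hM j hj).2.1 huJ).trans (mul_le_mul_of_nonneg_left ?_ hCm.le)
      calc (1 + k) ^ j / Real.log T ≤ L ^ (1 - κ) / Real.log T := div_le_div_of_nonneg_right (hmem j hj).2 hlT.le
        _ ≤ L ^ (1 - κ) / L := div_le_div_of_nonneg_left (by positivity) hL0 hLT
        _ = L ^ (-κ) := by
            rw [div_eq_mul_inv, ← Real.rpow_neg_one L, ← Real.rpow_add hL0]
            congr 1
            ring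
        _ ≤ _ := Real.rpow_le_rpow_of_exponent_le hL1 (by linarith)
    have h3 : NX (XX T ((1 + k) ^ j)) u - ((1 + k) ^ j - SS (XX T ((1 + k) ^ j)) u) =
        (NX (XX T ((1 + k) ^ j)) u - (MM (XX T ((1 + k) ^ j)) u - SS (XX T ((1 + k) ^ j)) u)) +
        (MM (XX T ((1 + k) ^ j)) u - (1 + k) ^ j) := by ring
    rw [h3]
    calc _ ≤ |NX (XX T ((1 + k) ^ j)) u - (MM (XX T ((1 + k) ^ j)) u - SS (XX T ((1 + k) ^ j)) u)| +
          |MM (XX T ((1 + k) ^ j)) u - (1 + k) ^ j| := abs_add_le _ _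
      _ ≤ (Cl + Cm) * L ^ (-(κ / 4)) := by linarith
      _ ≤ CC * L ^ (-(κ / 4)) := mul_le_mul_of_nonneg_right hC2 (by positivity)

end Pool.Agent.Helper60.NW
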