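import Pool.Agent.Helper57.NW.Defs
import Pool.Agent.Helper60.NS.Dp
import Pool.Agent.Helper60.NS.Shift

/-!
# NW, block P1: the tail of the Dirichlet polynomial, upper bound
-/

set_option autoImplicit false
open MeasureTheory Set Filter Topology
open Pool.Agent.Helper57.Zeta Pool.Agent.Helper57.LH Pool.Agent.Helper57.ED
open Pool.Agent.Helper54.LG (za zb qk SS MM)
open Pool.Agent.Helper93.UG (zc sp)
open Pool.Agent.Helper69.UG (XX NX)
open Pool.Agent.Helper57.TX (QX DP rs)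
open Pool.Agent.Helper57.NS (Thick cnt)
open Pool.Agent.Helper57.NW
open Pool.Agent.Helper60.NS (dp_tail_gen)

namespace Pool.Agent.Helper60.NW

/-- the ratio `L/R` is large -/
theorem ratio_ge {d R L : ℝ} (hL : 1 ≤ L) (hR : 1 ≤ R) (hRL : R ≤ L ^ (1 - d)) : L ^ d ≤ L / R := by
  have hL0 : 0 < L := by linarith
  have hR0 : 0 < R := by linarith
  rw [le_div_iff₀ hR0]
  calc L ^ d * R ≤ L ^ d * L ^ (1 - d) := mul_le_mul_of_nonneg_left hRL (Real.rpow_nonneg hL0.le _)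
    _ = L := by
        rw [← Real.rpow_add hL0]
        have : d + (1 - d) = 1 := by ring
        rw [this, Real.rpow_one]

/-- P1, over the bound for the variance -/
theorem dp_up_of {k d : ℝ} (hk : 0 < k) (hk8 : k ≤ 1 / 8) (hd : 0 < d) (n : ℕ)
    (var_up : ∃ C T₀ : ℝ, 1 ≤ C ∧ ∀ T R L : ℝ, T₀ ≤ T → C ≤ L → L ≤ Real.log T → 1 ≤ R → R ≤ L ^ (1 - d) →
      Vw k T R L n ≤ (1 + 6 * k) / Real.log (L / R)) :
    ∃ C T₀ : ℝ, 1 ≤ C ∧ ∀ T R L e : ℝ, T₀ ≤ T → C ≤ L → L ≤ Real.log T → 1 ≤ R → R ≤ L ^ (1 - d) → 0 < e → e ≤ 2 →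
    volume {t : ℝ | t ∈ Icc (T / 2) (3 * T) ∧ e < |Dw k T R L n t|} ≤
      ENNReal.ofReal (C * (L / R) ^ (-((1 - 7 * k) * e ^ 2)) * T) := by
  obtain ⟨Cv, Tv, hCv, hv⟩ := var_up
  obtain ⟨Td, htd⟩ := dp_tail_gen
  obtain ⟨K, hK, hlog⟩ := Pool.Agent.Helper60.NR.log_bd (a := k / 2) (by positivity)
  refine ⟨max (max Cv (4 * Real.exp 2 / k)) (max (64 ^ (1 / d)) (((16 * K) ^ (2 / k)) ^ (1 / d))), max (max Tv Td) 3, ?_, ?_⟩
  · exact hCv.trans ((le_max_left _ _).trans (le_max_left _ _))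
  intro T R L e hT hL hLT hR hRL he he2
  have hTv : Tv ≤ T := ((le_max_left _ _).trans (le_max_left _ _)).trans hT
  have hTd : Td ≤ T := ((le_max_right _ _).trans (le_max_left _ _)).trans hT
  have hT3 : 3 ≤ T := (le_max_right _ _).trans hT
  have hT0 : 0 < T := by linarith
  obtain ⟨CC, hCC⟩ : ∃ CC : ℝ, CC = max (max Cv (4 * Real.exp 2 / k)) (max (64 ^ (1 / d)) (((16 * K) ^ (2 / k)) ^ (1 / d))) := ⟨_, rfl⟩
  rw [← hCC] at hL ⊢
  have hC1 : 4 * Real.exp 2 / k ≤ CC := hCC ▸ (le_max_right _ _).trans (le_max_left _ _)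
  have hLv : Cv ≤ L := (hCC ▸ (le_max_left _ _).trans (le_max_left _ _)).trans hL
  have hL64 : (64 : ℝ) ^ (1 / d) ≤ L := (hCC ▸ (le_max_left _ _).trans (le_max_right _ _)).trans hL
  have hLK : ((16 * K) ^ (2 / k)) ^ (1 / d) ≤ L := (hCC ▸ (le_max_right _ _).trans (le_max_right _ _)).trans hL
  have hL1 : 1 ≤ L := hCv.trans hLv
  have hL0 : 0 < L := by linarith
  have hR0 : 0 < R := by linarith
  obtain ⟨U, hU⟩ : ∃ U : ℝ, U = L / R := ⟨_, rfl⟩
  have hUL : L ^ d ≤ U := hU ▸ ratio_ge hL1 hR hRL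
  have hpow : ∀ a : ℝ, 0 ≤ a → a ^ (1 / d) ≤ L → a ≤ U := by
    intro a ha h
    refine le_trans ?_ hUL
    calc a = (a ^ (1 / d)) ^ d := by
          rw [← Real.rpow_mul ha]
          have : 1 / d * d = 1 := by field_simp
          rw [this, Real.rpow_one]
      _ ≤ L ^ d := Real.rpow_le_rpow (Real.rpow_nonneg ha _) h hd.le
  have hU64 : 64 ≤ U := hpow 64 (by norm_num) hL64
  have hUK : (16 * K) ^ (2 / k) ≤ U := hpow _ (Real.rpow_nonneg (by positivity) _) hLK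
  have hU1 : 1 ≤ U := by linarith
  have hU0 : 0 < U := by linarith
  have hlU : 0 < Real.log U := Real.log_pos (by linarith)
  have hlT : 0 < Real.log T := by linarith
  obtain ⟨v, hvd⟩ : ∃ v : ℝ, v = (1 + 6 * k) / Real.log U := ⟨_, rfl⟩
  have hv0 : 0 < v := by rw [hvd]; positivity
  have hUk : 0 < U ^ k := Real.rpow_pos_of_pos hU0 _
  have hXe : Xr k T R L = Real.log T / (R * U ^ k) := by
    unfold Xr
    rw [hU]
  have hX : 0 ≤ Xr k T R L := by
    rw [hXe]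
    positivity
  have hX2 : Xr k T R L ≤ Real.log T / U ^ k := by
    rw [hXe]
    refine div_le_div_of_nonneg_left hlT.le hUk ?_
    nlinarith
  have hlen : e ^ 2 / v * Xr k T R L ≤ 1 / 4 * Real.log T := by
    have h1 : e ^ 2 / v ≤ 4 * Real.log U := by
      rw [hvd, div_div_eq_mul_div, div_le_iff₀ (by positivity)]
      have g1 : e ^ 2 ≤ 4 := by nlinarith
      have g2 : e ^ 2 * Real.log U ≤ 4 * Real.log U := mul_le_mul_of_nonneg_right g1 hlU.le
      nlinarith [mul_pos hk hlU]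
    have h2 := hlog U hU1
    have h3 : 16 * K ≤ U ^ (k / 2) := by
      have g1 : 16 * K = ((16 * K) ^ (2 / k)) ^ (k / 2) := by
        rw [← Real.rpow_mul (by positivity)]
        have : 2 / k * (k / 2) = 1 := by field_simp
        rw [this, Real.rpow_one]
      rw [g1]
      exact Real.rpow_le_rpow (Real.rpow_nonneg (by positivity) _) hUK (by positivity)
    have h4 : U ^ (k / 2) * U ^ (k / 2) = U ^ k := by
      rw [← Real.rpow_add hU0]
      congr 1
      ring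
    have hUk2 : 0 < U ^ (k / 2) := Real.rpow_pos_of_pos hU0 _
    calc e ^ 2 / v * Xr k T R L ≤ 4 * Real.log U * (Real.log T / U ^ k) :=
          mul_le_mul h1 hX2 hX (by positivity)
      _ = 4 * Real.log U * (Real.log T / (U ^ (k / 2) * U ^ (k / 2))) := by rw [h4]
      _ ≤ 4 * (K * U ^ (k / 2)) * (Real.log T / (U ^ (k / 2) * U ^ (k / 2))) :=
          mul_le_mul_of_nonneg_right (by linarith) (by positivity)
      _ = 4 * K * Real.log T / U ^ (k / 2) := by field_simp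
      _ ≤ 1 / 4 * Real.log T := by
          rw [div_le_iff₀ hUk2]
          nlinarith
  have hvar : ∑ p ∈ QX (Xr k T R L), rb k T (Jw k L n) (bw k R L n) p ^ 2 / (p : ℝ) ≤ v := by
    rw [hvd, hU]
    exact hv T R L hTv hLv hLT hR hRL
  have h1 := htd k T (Xr k T R L) v e (QX (Xr k T R L)) (rb k T (Jw k L n) (bw k R L n)) hTd hk (by linarith) hX (fun p hp => by
    unfold QX at hp
    obtain ⟨g1, g2⟩ := Finset.mem_filter.1 hp
    refine ⟨g2, ?_⟩
    have hp0 : (0:ℝ) < p := by exact_mod_cast g2.pos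
    rw [Real.log_le_iff_le_exp hp0]
    have g3 : p ≤ ⌊Real.exp (Xr k T R L)⌋₊ := by
      rw [Finset.mem_range] at g1
      omega
    exact (Nat.le_floor_iff (Real.exp_pos _).le).1 g3) hv0 hvar he hlen
  have hsub : {t : ℝ | t ∈ Icc (T / 2) (3 * T) ∧ e < |Dw k T R L n t|} ⊆
      {t : ℝ | t ∈ Pool.Agent.Helper57.TX.JJ T ∧ e ≤ ‖DP (QX (Xr k T R L)) (rb k T (Jw k L n) (bw k R L n)) t‖} := by
    intro t ht
    exact ⟨⟨ht.1.1, by linarith [ht.1.2]⟩, ht.2.le.trans (Complex.abs_re_le_norm _)⟩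
  refine ((measure_mono hsub).trans h1).trans (ENNReal.ofReal_le_ofReal (mul_le_mul_of_nonneg_right ?_ hT0.le))
  rw [← hU]
  have h5 : Real.exp (-((1 - k) * (e ^ 2 / v))) ≤ U ^ (-((1 - 7 * k) * e ^ 2)) := by
    rw [Real.rpow_def_of_pos hU0, Real.exp_le_exp]
    have h6 : e ^ 2 / v = e ^ 2 * Real.log U / (1 + 6 * k) := by
      rw [hvd]
      field_simp
    have h7 : (1 - 7 * k) * e ^ 2 * Real.log U ≤ (1 - k) * (e ^ 2 / v) := by
      rw [h6, ← mul_div_assoc, le_div_iff₀ (by positivity)]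
      have h8 : 0 ≤ e ^ 2 * Real.log U := by positivity
      have h9 : (1 - 7 * k) * (1 + 6 * k) ≤ 1 - k := by nlinarith [mul_pos hk hk]
      nlinarith [mul_le_mul_of_nonneg_right h9 h8]
    linarith
  calc 4 * Real.exp 2 / k * Real.exp (-((1 - k) * (e ^ 2 / v))) ≤ 4 * Real.exp 2 / k * U ^ (-((1 - 7 * k) * e ^ 2)) :=
        mul_le_mul_of_nonneg_left h5 (by positivity)
    _ ≤ CC * U ^ (-((1 - 7 * k) * e ^ 2)) := mul_le_mul_of_nonneg_right hC1 (by positivity)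

end Pool.Agent.Helper60.NW
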