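import Pool.Agent.Helper60.NW.P1
import Pool.Agent.Helper49.NW.VarW
import Pool.Agent.Helper7.NW.V0
import Pool.Agent.Helper82.NW.Var
import Pool.Agent.Helper82.NW.VarLow
import Pool.Agent.Helper84.NW.Fl

/-!
# NW, block P1 without hypotheses
-/

set_option autoImplicit false
open MeasureTheory Set Filter Topology
open Pool.Agent.Helper57.Zeta Pool.Agent.Helper57.LH Pool.Agent.Helper57.ED
open Pool.Agent.Helper54.LG (za zb qk SS MM)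
open Pool.Agent.Helper93.UG (zc sp)
open Pool.Agent.Helper69.UG (XX NX)
open Pool.Agent.Helper57.TX (QX DP rs)
open Pool.Agent.Helper57.NS (Thick cnt)
open Pool.Agent.Helper57.NW

namespace Pool.Agent.Helper60.NW

theorem var_w {k d : ℝ} (hk : 0 < k) (hk8 : k ≤ 1 / 8) (hd : 0 < d) (hd1 : d ≤ 1) (n : ℕ) : ∃ C T₀ : ℝ, 1 ≤ C ∧ ∀ T R L : ℝ,
    T₀ ≤ T → C ≤ L → L ≤ Real.log T → 1 ≤ R → R ≤ L ^ (1 - d) →
    (1 - 7 * k) / Real.log (L / R) ≤ Vw k T R L n ∧ Vw k T R L n ≤ (1 + 6 * k) / Real.log (L / R) :=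
  Pool.Agent.Helper49.NW.var_w_of hk hk8 hd hd1 n Pool.Agent.Helper7.NW.norm_one (Pool.Agent.Helper82.NW.var_up0 hk hk8 hd hd1)
    (Pool.Agent.Helper82.NW.var_low0 hk hk8 hd hd1) (Pool.Agent.Helper84.NW.bw_facts hk hk8 hd hd1 n)

theorem dp_up {k d : ℝ} (hk : 0 < k) (hk8 : k ≤ 1 / 8) (hd : 0 < d) (hd1 : d ≤ 1) (n : ℕ) :
    ∃ C T₀ : ℝ, 1 ≤ C ∧ ∀ T R L e : ℝ, T₀ ≤ T → C ≤ L → L ≤ Real.log T → 1 ≤ R → R ≤ L ^ (1 - d) → 0 < e → e ≤ 2 →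
    volume {t : ℝ | t ∈ Icc (T / 2) (3 * T) ∧ e < |Dw k T R L n t|} ≤
      ENNReal.ofReal (C * (L / R) ^ (-((1 - 7 * k) * e ^ 2)) * T) := by
  obtain ⟨C, T₀, hC, h⟩ := var_w hk hk8 hd hd1 n
  exact dp_up_of hk hk8 hd n ⟨C, T₀, hC, fun T R L h1 h2 h3 h4 h5 => (h T R L h1 h2 h3 h4 h5).2⟩

end Pool.Agent.Helper60.NW
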